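import Mathlib
import Pool.Agent.R450.QF.Reps

set_option autoImplicit false

/-! For every `n ≥ 6` some locally commutative free subgroup of rank two of `SO_n(ℝ)` contains an
element with the eigenvalue `-1`. -/

namespace Pool.Agent.Results.MP_6087e2_al.AllDimensions

open Matrix Pool.Agent.R450.QF

/-- `SO_n(ℝ)`: the real orthogonal `n × n` matrices of determinant one -/
abbrev SO (n : ℕ) : Type := Matrix.specialOrthogonalGroup (Fin n) ℝ

/-- a subgroup `G` of `SO_n(ℝ)` is locally commutative: any two elements of `G` with a common fixed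
point on the unit sphere commute -/
def LocallyCommutative {n : ℕ} (G : Subgroup (SO n)) : Prop :=
  ∀ g ∈ G, ∀ h ∈ G, (∃ x : Fin n → ℝ, ∑ i, x i ^ 2 = 1 ∧
    (g : Matrix (Fin n) (Fin n) ℝ) *ᵥ x = x ∧ (h : Matrix (Fin n) (Fin n) ℝ) *ᵥ x = x) →
    g * h = h * g

/-- `g` has the eigenvalue `-1` -/
def HasEigenvalueNegOne {n : ℕ} (g : SO n) : Prop :=
  ∃ x : Fin n → ℝ, x ≠ 0 ∧ (g : Matrix (Fin n) (Fin n) ℝ) *ᵥ x = -x

theorem result (n : ℕ) (hn : 6 ≤ n) : ∃ G : Subgroup (SO n),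
    Nonempty (FreeGroup (Fin 2) ≃* G) ∧ LocallyCommutative G ∧
      ∃ g ∈ G, HasEigenvalueNegOne g := by
  obtain ⟨ρ, hinj, ⟨hmem, hlc⟩, w, x, hx, hwx⟩ := good_all n hn
  let τ : F →* SO n := ρ.codRestrict (Matrix.specialOrthogonalGroup (Fin n) ℝ) hmem
  have hτ : ∀ w, ((τ w : SO n) : Matrix (Fin n) (Fin n) ℝ) = ρ w := fun _ => rfl
  have hτinj : Function.Injective τ := by
    intro a b hab
    apply hinj
    rw [← hτ, ← hτ, hab]
  refine ⟨τ.range, ⟨MonoidHom.ofInjective hτinj⟩, ?_, τ w, ⟨w, rfl⟩, x, hx, hwx⟩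
  rintro _ ⟨w₁, rfl⟩ _ ⟨w₂, rfl⟩ ⟨y, hy, e₁, e₂⟩
  rw [← map_mul, ← map_mul]
  congr 1
  apply hlc w₁ w₂ y
  · rintro rfl
    simp at hy
  · exact e₁
  · exact e₂

end Pool.Agent.Results.MP_6087e2_al.AllDimensions
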