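import Mathlib
import Pool.Agent.R881.FreeQuat

/-!
# MP_6087e2_al

For every `n ≥ 6` some locally commutative non-abelian free subgroup of `SO_n(ℝ)` contains an
element having `-1` as an eigenvalue.
-/

open Matrix Quaternion
open scoped Quaternion

namespace Pool.Agent.Results.MP_6087e2_al.AllLargeDimensions

open Pool.Agent.R881.FreeQuat

/-- A subgroup `G` of `SO_n(ℝ)` is locally commutative (in its action on the unit sphere of
`ℝ^n`): any two elements of `G` having a common fixed point on the unit sphere commute. -/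
def LocallyCommutative {n : ℕ} (G : Subgroup (Matrix.specialOrthogonalGroup (Fin n) ℝ)) : Prop :=
  ∀ g ∈ G, ∀ h ∈ G,
    (∃ x : Fin n → ℝ, x ⬝ᵥ x = 1 ∧ (g : Matrix (Fin n) (Fin n) ℝ) *ᵥ x = x ∧
      (h : Matrix (Fin n) (Fin n) ℝ) *ᵥ x = x) → g * h = h * g

/-- `g` has `-1` as an eigenvalue. -/
def HasNegOne {n : ℕ} (g : Matrix.specialOrthogonalGroup (Fin n) ℝ) : Prop :=
  ∃ x : Fin n → ℝ, x ≠ 0 ∧ (g : Matrix (Fin n) (Fin n) ℝ) *ᵥ x = -x

abbrev F := FreeGroup (Fin 2)

/-! ### the free group of unit quaternions -/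

theorem exists_free : ∃ S : F →* ℍ[ℝ]ˣ, Function.Injective S ∧
    ∀ w, Quaternion.normSq (S w : ℍ[ℝ]) = 1 := by
  obtain ⟨lam, hlam, hn⟩ := exists_family (Fin 2) (by
    rw [Cardinal.mk_fin]
    exact (Cardinal.natCast_lt_aleph0).le.trans Cardinal.aleph0_le_continuum)
  refine ⟨FreeGroup.lift (fun i => qu (lam i) (hn i)), ?_, ?_⟩
  · rw [injective_iff_map_eq_one]
    intro w hw
    exact free lam hlam hn w hw
  · intro w
    refine FreeGroup.induction_on w ?_ ?_ ?_ ?_
    · simp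
    · intro i; rw [FreeGroup.lift_apply_of]; exact normSq_q _ (hn i)
    · intro i hi
      rw [map_inv, FreeGroup.lift_apply_of]
      show Quaternion.normSq (star (q (lam i))) = 1
      rw [Quaternion.normSq_star]; exact normSq_q _ (hn i)
    · intro x y hx hy; rw [map_mul, Units.val_mul, map_mul, hx, hy, one_mul]

section quaternions

/-- Matrix of left multiplication. -/
def Lm (q : ℍ[ℝ]) : Matrix (Fin 4) (Fin 4) ℝ :=
  !![q.re, -q.imI, -q.imJ, -q.imK;
     q.imI, q.re, -q.imK, q.imJ;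
     q.imJ, q.imK, q.re, -q.imI;
     q.imK, -q.imJ, q.imI, q.re]

/-- Matrix of right multiplication. -/
def Rm (q : ℍ[ℝ]) : Matrix (Fin 4) (Fin 4) ℝ :=
  !![q.re, -q.imI, -q.imJ, -q.imK;
     q.imI, q.re, q.imK, -q.imJ;
     q.imJ, -q.imK, q.re, q.imI;
     q.imK, q.imJ, -q.imI, q.re]

/-- Matrix of conjugation on the imaginary quaternions. -/
def Cm (q : ℍ[ℝ]) : Matrix (Fin 3) (Fin 3) ℝ :=
  !![q.re ^ 2 + q.imI ^ 2 - q.imJ ^ 2 - q.imK ^ 2, 2 * (q.imI * q.imJ - q.re * q.imK),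
      2 * (q.imI * q.imK + q.re * q.imJ);
     2 * (q.imI * q.imJ + q.re * q.imK), q.re ^ 2 - q.imI ^ 2 + q.imJ ^ 2 - q.imK ^ 2,
      2 * (q.imJ * q.imK - q.re * q.imI);
     2 * (q.imI * q.imK - q.re * q.imJ), 2 * (q.imJ * q.imK + q.re * q.imI),
      q.re ^ 2 - q.imI ^ 2 - q.imJ ^ 2 + q.imK ^ 2]

def of4 (v : Fin 4 → ℝ) : ℍ[ℝ] := ⟨v 0, v 1, v 2, v 3⟩
def of3 (v : Fin 3 → ℝ) : ℍ[ℝ] := ⟨0, v 0, v 1, v 2⟩
@[simp] theorem of4_re (v) : (of4 v).re = v 0 := rfl
@[simp] theorem of4_imI (v) : (of4 v).imI = v 1 := rfl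
@[simp] theorem of4_imJ (v) : (of4 v).imJ = v 2 := rfl
@[simp] theorem of4_imK (v) : (of4 v).imK = v 3 := rfl
@[simp] theorem of3_re (v) : (of3 v).re = 0 := rfl
@[simp] theorem of3_imI (v) : (of3 v).imI = v 0 := rfl
@[simp] theorem of3_imJ (v) : (of3 v).imJ = v 1 := rfl
@[simp] theorem of3_imK (v) : (of3 v).imK = v 2 := rfl

theorem of4_Lm (q : ℍ[ℝ]) (v : Fin 4 → ℝ) : of4 (Lm q *ᵥ v) = q * of4 v := by
  apply Quaternion.ext <;>
    simp [Lm, dotProduct, Fin.sum_univ_succ, Quaternion.re_mul,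
      Quaternion.imI_mul, Quaternion.imJ_mul, Quaternion.imK_mul] <;> ring

theorem of4_Rm (q : ℍ[ℝ]) (v : Fin 4 → ℝ) : of4 (Rm q *ᵥ v) = of4 v * q := by
  apply Quaternion.ext <;>
    simp [Rm, dotProduct, Fin.sum_univ_succ, Quaternion.re_mul,
      Quaternion.imI_mul, Quaternion.imJ_mul, Quaternion.imK_mul] <;> ring

theorem of3_Cm (q : ℍ[ℝ]) (v : Fin 3 → ℝ) : of3 (Cm q *ᵥ v) = q * of3 v * star q := by
  apply Quaternion.ext <;>
    simp [Cm, dotProduct, Fin.sum_univ_succ, Quaternion.re_mul,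
      Quaternion.imI_mul, Quaternion.imJ_mul, Quaternion.imK_mul] <;> ring

theorem of4_inj {v w : Fin 4 → ℝ} (h : of4 v = of4 w) : v = w := by
  have h1 := congrArg (fun x : ℍ[ℝ] => x.re) h
  have h2 := congrArg (fun x : ℍ[ℝ] => x.imI) h
  have h3 := congrArg (fun x : ℍ[ℝ] => x.imJ) h
  have h4 := congrArg (fun x : ℍ[ℝ] => x.imK) h
  simp only [of4] at h1 h2 h3 h4
  funext i; fin_cases i
  · exact h1
  · exact h2
  · exact h3
  · exact h4

theorem of3_inj {v w : Fin 3 → ℝ} (h : of3 v = of3 w) : v = w := by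
  have h2 := congrArg (fun x : ℍ[ℝ] => x.imI) h
  have h3 := congrArg (fun x : ℍ[ℝ] => x.imJ) h
  have h4 := congrArg (fun x : ℍ[ℝ] => x.imK) h
  simp only [of3] at h2 h3 h4
  funext i; fin_cases i
  · exact h2
  · exact h3
  · exact h4

theorem of4_neg (v : Fin 4 → ℝ) : of4 (-v) = - of4 v := by
  apply Quaternion.ext <;> simp
theorem of3_neg (v : Fin 3 → ℝ) : of3 (-v) = - of3 v := by
  apply Quaternion.ext <;> simp
theorem of4_zero : of4 0 = 0 := by
  apply Quaternion.ext <;> simp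
theorem of3_zero : of3 0 = 0 := by
  apply Quaternion.ext <;> simp

theorem mat_ext {ι : Type*} [Fintype ι] [DecidableEq ι] {A B : Matrix ι ι ℝ}
    (h : ∀ v, A *ᵥ v = B *ᵥ v) : A = B := by
  ext i j
  have := congrFun (h (Pi.single j 1)) i
  simpa using this

theorem Lm_mul (p q : ℍ[ℝ]) : Lm (p * q) = Lm p * Lm q :=
  mat_ext fun v => of4_inj (by rw [of4_Lm, ← mulVec_mulVec, of4_Lm, of4_Lm, mul_assoc])
theorem Rm_mul (p q : ℍ[ℝ]) : Rm (p * q) = Rm q * Rm p :=
  mat_ext fun v => of4_inj (by rw [of4_Rm, ← mulVec_mulVec, of4_Rm, of4_Rm, mul_assoc])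
theorem Lm_Rm (p q : ℍ[ℝ]) : Lm p * Rm q = Rm q * Lm p :=
  mat_ext fun v => of4_inj (by
    rw [← mulVec_mulVec, ← mulVec_mulVec, of4_Rm, of4_Lm, of4_Lm, of4_Rm, mul_assoc])
theorem Cm_mul (p q : ℍ[ℝ]) : Cm (p * q) = Cm p * Cm q :=
  mat_ext fun v => of3_inj (by
    rw [of3_Cm, ← mulVec_mulVec, of3_Cm, of3_Cm, star_mul]; simp only [mul_assoc])
theorem Lm_one : Lm 1 = 1 :=
  mat_ext fun v => of4_inj (by rw [of4_Lm, one_mulVec, one_mul])
theorem Rm_one : Rm 1 = 1 :=
  mat_ext fun v => of4_inj (by rw [of4_Rm, one_mulVec, mul_one])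
theorem Cm_one : Cm 1 = 1 :=
  mat_ext fun v => of3_inj (by rw [of3_Cm, one_mulVec, one_mul, star_one, mul_one])

theorem Lm_star (q : ℍ[ℝ]) : Lm (star q) = (Lm q)ᵀ := by
  ext i j; fin_cases i <;> fin_cases j <;> simp [Lm]
theorem Rm_star (q : ℍ[ℝ]) : Rm (star q) = (Rm q)ᵀ := by
  ext i j; fin_cases i <;> fin_cases j <;> simp [Rm]
theorem Cm_star (q : ℍ[ℝ]) : Cm (star q) = (Cm q)ᵀ := by
  ext i j; fin_cases i <;> fin_cases j <;> simp [Cm] <;> ring

theorem Lm_det (q : ℍ[ℝ]) : (Lm q).det = Quaternion.normSq q ^ 2 := by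
  rw [Quaternion.normSq_def']
  simp [Lm, Matrix.det_succ_row_zero, Fin.sum_univ_succ, Fin.succAbove]
  ring
theorem Rm_det (q : ℍ[ℝ]) : (Rm q).det = Quaternion.normSq q ^ 2 := by
  rw [Quaternion.normSq_def']
  simp [Rm, Matrix.det_succ_row_zero, Fin.sum_univ_succ, Fin.succAbove]
  ring
theorem Cm_det (q : ℍ[ℝ]) : (Cm q).det = Quaternion.normSq q ^ 3 := by
  rw [Quaternion.normSq_def', Matrix.det_fin_three]
  simp [Cm]
  ring

theorem cross_aux (p1 p2 p3 q1 q2 q3 x y z : ℝ) (h : x ≠ 0) (a2 : p3 * x = p1 * z)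
    (a3 : p1 * y = p2 * x) (b2 : q3 * x = q1 * z) (b3 : q1 * y = q2 * x) :
    p2 * q3 = p3 * q2 ∧ p3 * q1 = p1 * q3 ∧ p1 * q2 = p2 * q1 := by
  refine ⟨?_, ?_, ?_⟩ <;> refine mul_right_cancel₀ (mul_ne_zero h h) ?_
  · linear_combination (p1 * y) * b2 - (x * q3) * a3 + (p1 * z) * b3 - (x * q2) * a2
  · linear_combination (x * q1) * a2 - (x * p1) * b2
  · linear_combination (x * q1) * a3 - (x * p1) * b3

/-- quaternions commuting with the same nonzero imaginary quaternion commute. -/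
theorem comm_of_comm (p q v : ℍ[ℝ]) (hv : v.re = 0) (hv0 : v ≠ 0) (hp : p * v = v * p)
    (hq : q * v = v * q) : p * q = q * p := by
  have p1 := congrArg (fun x : ℍ[ℝ] => x.imI) hp
  have p2 := congrArg (fun x : ℍ[ℝ] => x.imJ) hp
  have p3 := congrArg (fun x : ℍ[ℝ] => x.imK) hp
  have q1 := congrArg (fun x : ℍ[ℝ] => x.imI) hq
  have q2 := congrArg (fun x : ℍ[ℝ] => x.imJ) hq
  have q3 := congrArg (fun x : ℍ[ℝ] => x.imK) hq
  simp only [Quaternion.imI_mul, Quaternion.imJ_mul, Quaternion.imK_mul, hv] at p1 p2 p3 q1 q2 q3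
  have hne : v.imI ≠ 0 ∨ v.imJ ≠ 0 ∨ v.imK ≠ 0 := by
    by_contra h
    push Not at h
    exact hv0 (by apply Quaternion.ext <;> simp [hv, h])
  obtain ⟨k1, k2, k3⟩ : p.imJ * q.imK = p.imK * q.imJ ∧ p.imK * q.imI = p.imI * q.imK ∧
      p.imI * q.imJ = p.imJ * q.imI := by
    have a1 : p.imJ * v.imK = p.imK * v.imJ := by linarith
    have a2 : p.imK * v.imI = p.imI * v.imK := by linarith
    have a3 : p.imI * v.imJ = p.imJ * v.imI := by linarith
    have b1 : q.imJ * v.imK = q.imK * v.imJ := by linarith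
    have b2 : q.imK * v.imI = q.imI * v.imK := by linarith
    have b3 : q.imI * v.imJ = q.imJ * v.imI := by linarith
    rcases hne with h | h | h
    · exact cross_aux _ _ _ _ _ _ _ _ _ h a2 a3 b2 b3
    · obtain ⟨c1, c2, c3⟩ := cross_aux _ _ _ _ _ _ _ _ _ h a3 a1 b3 b1
      exact ⟨c3, c1, c2⟩
    · obtain ⟨c1, c2, c3⟩ := cross_aux _ _ _ _ _ _ _ _ _ h a1 a2 b1 b2
      exact ⟨c2, c3, c1⟩
  apply Quaternion.ext <;>
    simp only [Quaternion.re_mul, Quaternion.imI_mul, Quaternion.imJ_mul, Quaternion.imK_mul]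
  · ring
  · linear_combination 2 * k1
  · linear_combination 2 * k2
  · linear_combination 2 * k3

/-- a quaternion commuting with all imaginary quaternions is real. -/
theorem im_zero_of_central (p : ℍ[ℝ]) (h : ∀ v : Fin 3 → ℝ, p * of3 v = of3 v * p) :
    p.imI = 0 ∧ p.imJ = 0 ∧ p.imK = 0 := by
  have h1 := h ![1, 0, 0]
  have h2 := h ![0, 1, 0]
  have e1 := congrArg (fun x : ℍ[ℝ] => x.imJ) h1
  have e2 := congrArg (fun x : ℍ[ℝ] => x.imK) h1
  have e3 := congrArg (fun x : ℍ[ℝ] => x.imK) h2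
  simp only [Quaternion.imJ_mul, Quaternion.imK_mul, of3_re, of3_imI, of3_imJ, of3_imK,
    Matrix.cons_val_zero, Matrix.cons_val_one, Matrix.cons_val] at e1 e2 e3
  refine ⟨?_, ?_, ?_⟩ <;> linarith

end quaternions

section words

variable (S : F →* ℍ[ℝ]ˣ) (hS : Function.Injective S)
  (hn : ∀ w, Quaternion.normSq (S w : ℍ[ℝ]) = 1)

include hn in
theorem star_mul_self' (w : F) : star (S w : ℍ[ℝ]) * (S w : ℍ[ℝ]) = 1 := by
  rw [Quaternion.star_mul_self, hn]; simp
include hn in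
theorem self_mul_star' (w : F) : (S w : ℍ[ℝ]) * star (S w : ℍ[ℝ]) = 1 := by
  rw [Quaternion.self_mul_star, hn]; simp

include hS in
theorem eq_one_of_sq (w : F) (h : (S w : ℍ[ℝ]) * (S w : ℍ[ℝ]) = 1) : w = 1 := by
  have h1 : S (w ^ 2) = S 1 := by
    rw [map_one, pow_two, map_mul]
    exact Units.ext h
  have h2 : w ^ 2 = 1 := hS h1
  exact (pow_eq_one_iff.1 h2).resolve_right two_ne_zero

include hS hn in
theorem eq_one_of_real (w : F) (h : (S w : ℍ[ℝ]).imI = 0 ∧ (S w : ℍ[ℝ]).imJ = 0 ∧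
    (S w : ℍ[ℝ]).imK = 0) : w = 1 := by
  apply eq_one_of_sq S hS
  have h1 := hn w
  rw [Quaternion.normSq_def', h.1, h.2.1, h.2.2] at h1
  apply Quaternion.ext <;> simp [h]
  nlinarith

include hS in
theorem no_anti (w : F) (v : ℍ[ℝ]) (hv : v ≠ 0) (hre : v.re = 0)
    (hnw : Quaternion.normSq (S w : ℍ[ℝ]) = 1)
    (h : (S w : ℍ[ℝ]) * v = - (v * (S w : ℍ[ℝ]))) : False := by
  -- the real part of `S w` vanishes
  have h0 : (S w : ℍ[ℝ]).re = 0 := by
    set p := (S w : ℍ[ℝ]) with hp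
    have e1 := congrArg (fun x : ℍ[ℝ] => x.imI) h
    have e2 := congrArg (fun x : ℍ[ℝ] => x.imJ) h
    have e3 := congrArg (fun x : ℍ[ℝ] => x.imK) h
    simp only [Quaternion.imI_neg, Quaternion.imJ_neg, Quaternion.imK_neg, Quaternion.imI_mul,
      Quaternion.imJ_mul, Quaternion.imK_mul, hre] at e1 e2 e3
    by_contra hne
    have f1 : p.re * v.imI = 0 := by linarith
    have f2 : p.re * v.imJ = 0 := by linarith
    have f3 : p.re * v.imK = 0 := by linarith
    apply hv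
    apply Quaternion.ext
    · simpa using hre
    · simpa [hne] using f1
    · simpa [hne] using f2
    · simpa [hne] using f3
  have h1 : (S w : ℍ[ℝ]) * (S w : ℍ[ℝ]) = -1 := by
    rw [Quaternion.normSq_def', h0] at hnw
    apply Quaternion.ext <;> simp [h0]
    · nlinarith
    · ring
    · ring
    · ring
  have h2 : w * w = 1 := by
    apply eq_one_of_sq S hS
    rw [map_mul, Units.val_mul, h1]; simp
  have h3 : w = 1 := by
    rw [← pow_two] at h2
    exact (pow_eq_one_iff.1 h2).resolve_right two_ne_zero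
  rw [h3] at h0
  simp at h0

end words

section reps

/-- a locally commutative orthogonal representation of the free group. -/
structure Rep (ι : Type) [Fintype ι] [DecidableEq ι] where
  M : F →* Matrix ι ι ℝ
  orth : ∀ w, (M w)ᵀ * M w = 1
  lc : ∀ w u v, v ≠ 0 → M w *ᵥ v = v → M u *ᵥ v = v → w * u = u * w

variable {ι κ : Type} [Fintype ι] [DecidableEq ι] [Fintype κ] [DecidableEq κ]

def Faithful (R : Rep ι) : Prop := ∀ w, R.M w = 1 → w = 1
def Neg (R : Rep ι) : Prop := ∃ w, ∃ v, v ≠ 0 ∧ R.M w *ᵥ v = -v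

def Rep.sum (R : Rep ι) (T : Rep κ) : Rep (ι ⊕ κ) where
  M :=
    { toFun := fun w => fromBlocks (R.M w) 0 0 (T.M w)
      map_one' := by simp
      map_mul' := by intro x y; simp [fromBlocks_multiply] }
  orth := by
    intro w
    show (fromBlocks (R.M w) 0 0 (T.M w))ᵀ * fromBlocks (R.M w) 0 0 (T.M w) = 1
    rw [fromBlocks_transpose, fromBlocks_multiply]
    simp [R.orth, T.orth]
  lc := by
    intro w u v hv h1 h2
    change (fromBlocks (R.M w) 0 0 (T.M w)) *ᵥ v = v at h1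
    change (fromBlocks (R.M u) 0 0 (T.M u)) *ᵥ v = v at h2
    rw [fromBlocks_mulVec] at h1 h2
    have a1 : R.M w *ᵥ (v ∘ Sum.inl) = v ∘ Sum.inl := by
      funext i; have := congrFun h1 (Sum.inl i); simpa using this
    have a2 : T.M w *ᵥ (v ∘ Sum.inr) = v ∘ Sum.inr := by
      funext i; have := congrFun h1 (Sum.inr i); simpa using this
    have b1 : R.M u *ᵥ (v ∘ Sum.inl) = v ∘ Sum.inl := by
      funext i; have := congrFun h2 (Sum.inl i); simpa using this
    have b2 : T.M u *ᵥ (v ∘ Sum.inr) = v ∘ Sum.inr := by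
      funext i; have := congrFun h2 (Sum.inr i); simpa using this
    by_cases h : v ∘ Sum.inl = 0
    · refine T.lc w u _ ?_ a2 b2
      intro h'
      apply hv
      funext i
      rcases i with i | i
      · exact congrFun h i
      · exact congrFun h' i
    · exact R.lc w u _ h a1 b1

def Rep.reindex (R : Rep ι) (e : ι ≃ κ) : Rep κ where
  M :=
    { toFun := fun w => (R.M w).submatrix e.symm e.symm
      map_one' := by simp
      map_mul' := by intro x y; simp [Matrix.submatrix_mul_equiv] }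
  orth := by
    intro w
    show ((R.M w).submatrix e.symm e.symm)ᵀ * (R.M w).submatrix e.symm e.symm = 1
    rw [transpose_submatrix, Matrix.submatrix_mul_equiv, R.orth, submatrix_one_equiv]
  lc := by
    intro w u v hv h1 h2
    change ((R.M w).submatrix e.symm e.symm) *ᵥ v = v at h1
    change ((R.M u).submatrix e.symm e.symm) *ᵥ v = v at h2
    rw [submatrix_mulVec_equiv] at h1 h2
    refine R.lc w u (v ∘ e) ?_ ?_ ?_
    · intro h
      apply hv
      funext i
      have := congrFun h (e.symm i)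
      simpa using this
    · funext i
      have := congrFun h1 (e i)
      simpa using this
    · funext i
      have := congrFun h2 (e i)
      simpa using this

theorem det_sum (R : Rep ι) (T : Rep κ) (w : F) :
    ((R.sum T).M w).det = (R.M w).det * (T.M w).det := by
  show (fromBlocks (R.M w) 0 0 (T.M w)).det = _
  rw [det_fromBlocks_zero₂₁]

theorem det_reindex (R : Rep ι) (e : ι ≃ κ) (w : F) :
    ((R.reindex e).M w).det = (R.M w).det := by
  show ((R.M w).submatrix e.symm e.symm).det = _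
  rw [det_submatrix_equiv_self]

theorem faithful_sum_left (R : Rep ι) (T : Rep κ) (h : Faithful R) : Faithful (R.sum T) := by
  intro w hw
  apply h
  change fromBlocks (R.M w) 0 0 (T.M w) = 1 at hw
  rw [← fromBlocks_one, fromBlocks_inj] at hw
  exact hw.1

theorem faithful_sum_right (R : Rep ι) (T : Rep κ) (h : Faithful T) : Faithful (R.sum T) := by
  intro w hw
  apply h
  change fromBlocks (R.M w) 0 0 (T.M w) = 1 at hw
  rw [← fromBlocks_one, fromBlocks_inj] at hw
  exact hw.2.2.2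

theorem neg_sum_left (R : Rep ι) (T : Rep κ) (h : Neg R) : Neg (R.sum T) := by
  obtain ⟨w, v, hv, h⟩ := h
  refine ⟨w, Sum.elim v 0, ?_, ?_⟩
  · intro h0
    apply hv
    funext i
    exact congrFun h0 (Sum.inl i)
  · show (fromBlocks (R.M w) 0 0 (T.M w)) *ᵥ _ = _
    rw [fromBlocks_mulVec]
    funext i
    rcases i with i | i <;> simp [h]

theorem faithful_reindex (R : Rep ι) (e : ι ≃ κ) (h : Faithful R) : Faithful (R.reindex e) := by
  intro w hw
  apply h
  change (R.M w).submatrix e.symm e.symm = 1 at hw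
  have := congrArg (fun A => A.submatrix e e) hw
  simpa using this

theorem neg_reindex (R : Rep ι) (e : ι ≃ κ) (h : Neg R) : Neg (R.reindex e) := by
  obtain ⟨w, v, hv, h⟩ := h
  refine ⟨w, v ∘ e.symm, ?_, ?_⟩
  · intro h0
    apply hv
    funext i
    have := congrFun h0 (e i)
    simpa using this
  · show ((R.M w).submatrix e.symm e.symm) *ᵥ _ = _
    rw [submatrix_mulVec_equiv]
    funext i
    have := congrFun h (e.symm i)
    simpa [Function.comp_assoc] using this

def Good (n : ℕ) : Prop := ∃ R : Rep (Fin n), (∀ w, (R.M w).det = 1) ∧ Faithful R ∧ Neg R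

theorem good_of {n : ℕ} (R : Rep ι) (hn : Fintype.card ι = n) (hd : ∀ w, (R.M w).det = 1)
    (h : Faithful R) (h' : Neg R) : Good n :=
  ⟨R.reindex (Fintype.equivFinOfCardEq hn), fun w => by rw [det_reindex, hd],
    faithful_reindex _ _ h, neg_reindex _ _ h'⟩

theorem exists_subgroup {n : ℕ} (h : Good n) :
    ∃ G : Subgroup (Matrix.specialOrthogonalGroup (Fin n) ℝ),
      Nonempty (FreeGroup (Fin 2) ≃* G) ∧ LocallyCommutative G ∧ ∃ g ∈ G, HasNegOne g := by
  obtain ⟨R, hd, hf, w, v, hv, hwv⟩ := h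
  let φ : F →* Matrix.specialOrthogonalGroup (Fin n) ℝ :=
    { toFun := fun w => ⟨R.M w, by
        rw [mem_specialOrthogonalGroup_iff]
        refine ⟨?_, hd w⟩
        rw [mem_orthogonalGroup_iff']
        exact R.orth w⟩
      map_one' := Subtype.ext (map_one R.M)
      map_mul' := fun x y => Subtype.ext (map_mul R.M x y) }
  have hφ : ∀ w, ((φ w : Matrix.specialOrthogonalGroup (Fin n) ℝ) : Matrix (Fin n) (Fin n) ℝ) =
      R.M w := fun w => rfl
  have hinj : Function.Injective φ := by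
    rw [injective_iff_map_eq_one]
    intro u hu
    apply hf
    rw [← hφ, hu]; rfl
  refine ⟨φ.range, ⟨MonoidHom.ofInjective hinj⟩, ?_, φ w, ⟨w, rfl⟩, v, hv, ?_⟩
  · rintro _ ⟨a, rfl⟩ _ ⟨b, rfl⟩ ⟨x, hx1, hx2, hx3⟩
    rw [hφ] at hx2 hx3
    rw [← map_mul, ← map_mul, R.lc a b x ?_ hx2 hx3]
    intro h0
    rw [h0] at hx1
    simp at hx1
  · rw [hφ]; exact hwv

end reps

section concrete

variable (S : F →* ℍ[ℝ]ˣ) (hS : Function.Injective S)
  (hn : ∀ w, Quaternion.normSq (S w : ℍ[ℝ]) = 1)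

/-- the character of the free group sending the first generator to `-1` -/
def sg : F →* ℤˣ := FreeGroup.lift ![-1, 1]

include hS hn in
theorem tw (c : ℤˣ) (w : F) (v : Fin 3 → ℝ) (hv : v ≠ 0)
    (h : ((c : ℤ) : ℝ) • (Cm (S w) *ᵥ v) = v) : (S w : ℍ[ℝ]) * of3 v = of3 v * (S w : ℍ[ℝ]) := by
  have hv' : of3 v ≠ 0 := by
    rw [← of3_zero]; exact fun h => hv (of3_inj h)
  rcases Int.units_eq_one_or c with hc | hc
  · rw [hc] at h
    have h1 : Cm (S w) *ᵥ v = v := by simpa using h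
    have h2 := congrArg of3 h1
    rw [of3_Cm] at h2
    have h3 := congrArg (fun x => x * (S w : ℍ[ℝ])) h2
    simp only [mul_assoc, star_mul_self' S hn, mul_one] at h3
    exact h3
  · exfalso
    rw [hc] at h
    have h1 : Cm (S w) *ᵥ v = -v := by
      have : -(Cm (S w) *ᵥ v) = v := by simpa using h
      rw [← this, neg_neg, this]
    have h2 := congrArg of3 h1
    rw [of3_Cm, of3_neg] at h2
    have h3 := congrArg (fun x => x * (S w : ℍ[ℝ])) h2
    simp only [mul_assoc, star_mul_self' S hn, mul_one] at h3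
    rw [neg_mul] at h3
    exact no_anti S hS w (of3 v) hv' rfl (hn w) h3

/-- three dimensional block twisted by a character -/
noncomputable def V3 (ε : F →* ℤˣ) : Rep (Fin 3) where
  M :=
    { toFun := fun w => (((ε w : ℤˣ) : ℤ) : ℝ) • Cm (S w)
      map_one' := by simp [Cm_one]
      map_mul' := by
        intro x y
        rw [map_mul, map_mul, Units.val_mul, Units.val_mul, Cm_mul, Int.cast_mul,
          smul_mul_smul_comm] }
  orth := by
    intro w
    show ((((ε w : ℤˣ) : ℤ) : ℝ) • Cm (S w))ᵀ * ((((ε w : ℤˣ) : ℤ) : ℝ) • Cm (S w)) = 1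
    have h1 : (Cm (S w))ᵀ * Cm (S w) = 1 := by
      rw [← Cm_star, ← Cm_mul, star_mul_self' S hn, Cm_one]
    rw [transpose_smul, smul_mul_smul_comm, h1]
    rcases Int.units_eq_one_or (ε w) with hc | hc <;> simp [hc]
  lc := by
    intro w u v hv h1 h2
    change ((((ε w : ℤˣ) : ℤ) : ℝ) • Cm (S w)) *ᵥ v = v at h1
    change ((((ε u : ℤˣ) : ℤ) : ℝ) • Cm (S u)) *ᵥ v = v at h2
    rw [smul_mulVec] at h1 h2
    have hv' : of3 v ≠ 0 := by
      rw [← of3_zero]; exact fun h => hv (of3_inj h)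
    apply hS
    rw [map_mul, map_mul]
    apply Units.ext
    rw [Units.val_mul, Units.val_mul]
    exact comm_of_comm _ _ (of3 v) rfl hv' (tw S hS hn _ w v hv h1) (tw S hS hn _ u v hv h2)

theorem V3_det (ε : F →* ℤˣ) (w : F) : ((V3 S hS hn ε).M w).det = ((ε w : ℤˣ) : ℤ) := by
  show ((((ε w : ℤˣ) : ℤ) : ℝ) • Cm (S w)).det = _
  rw [det_smul, Cm_det, hn]
  rcases Int.units_eq_one_or (ε w) with hc | hc <;> norm_num [hc]

theorem V3_faithful (ε : F →* ℤˣ) : Faithful (V3 S hS hn ε) := by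
  intro w hw
  change (((ε w : ℤˣ) : ℤ) : ℝ) • Cm (S w) = 1 at hw
  apply eq_one_of_real S hS hn
  apply im_zero_of_central
  intro v
  by_cases hv : v = 0
  · rw [hv, of3_zero]; simp
  · apply tw S hS hn (ε w) w v hv
    rw [← smul_mulVec, hw, one_mulVec]

/-- left multiplication block twisted by a commutative character -/
noncomputable def V4 (T : F →* ℍ[ℝ]ˣ) (hT : ∀ w u, T w * T u = T u * T w)
    (hTn : ∀ w, Quaternion.normSq (T w : ℍ[ℝ]) = 1) : Rep (Fin 4) where
  M :=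
    { toFun := fun w => Lm (S w) * Rm (T w)
      map_one' := by simp [Lm_one, Rm_one]
      map_mul' := by
        intro x y
        rw [map_mul, map_mul, hT, Units.val_mul, Units.val_mul, Lm_mul, Rm_mul,
          Matrix.mul_assoc, Matrix.mul_assoc, ← Matrix.mul_assoc (Lm (S y)), Lm_Rm,
          Matrix.mul_assoc] }
  orth := by
    intro w
    show (Lm (S w) * Rm (T w))ᵀ * (Lm (S w) * Rm (T w)) = 1
    have h1 : (Lm (S w))ᵀ * Lm (S w) = 1 := by
      rw [← Lm_star, ← Lm_mul, star_mul_self' S hn, Lm_one]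
    have h2 : (Rm (T w))ᵀ * Rm (T w) = 1 := by
      rw [← Rm_star, ← Rm_mul, self_mul_star' T hTn, Rm_one]
    rw [transpose_mul, Matrix.mul_assoc, ← Matrix.mul_assoc (Lm (S w))ᵀ, h1, Matrix.one_mul, h2]
  lc := by
    intro w u v hv h1 h2
    change (Lm (S w) * Rm (T w)) *ᵥ v = v at h1
    change (Lm (S u) * Rm (T u)) *ᵥ v = v at h2
    have hv' : of4 v ≠ 0 := by
      rw [← of4_zero]; exact fun h => hv (of4_inj h)
    have e1 := congrArg of4 h1
    have e2 := congrArg of4 h2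
    rw [← mulVec_mulVec, of4_Lm, of4_Rm] at e1 e2
    -- `S w = v (T w)⁻¹ v⁻¹`
    let V : ℍ[ℝ]ˣ := Units.mk0 _ hv'
    have f1 : S w * (V * T w) = V := Units.ext (by simpa [V] using e1)
    have f2 : S u * (V * T u) = V := Units.ext (by simpa [V] using e2)
    have g1 : S w = V * (T w)⁻¹ * V⁻¹ := by
      rw [eq_mul_inv_iff_mul_eq, eq_mul_inv_iff_mul_eq, mul_assoc]; exact f1
    have g2 : S u = V * (T u)⁻¹ * V⁻¹ := by
      rw [eq_mul_inv_iff_mul_eq, eq_mul_inv_iff_mul_eq, mul_assoc]; exact f2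
    apply hS
    rw [map_mul, map_mul, g1, g2]
    have : (T w)⁻¹ * (T u)⁻¹ = (T u)⁻¹ * (T w)⁻¹ := by
      rw [← _root_.mul_inv_rev, ← _root_.mul_inv_rev, hT]
    calc V * (T w)⁻¹ * V⁻¹ * (V * (T u)⁻¹ * V⁻¹) = V * ((T w)⁻¹ * (T u)⁻¹) * V⁻¹ := by group
      _ = V * ((T u)⁻¹ * (T w)⁻¹) * V⁻¹ := by rw [this]
      _ = _ := by group

theorem V4_det (T : F →* ℍ[ℝ]ˣ) (hT : ∀ w u, T w * T u = T u * T w)
    (hTn : ∀ w, Quaternion.normSq (T w : ℍ[ℝ]) = 1) (w : F) :
    ((V4 S hS hn T hT hTn).M w).det = 1 := by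
  show (Lm (S w) * Rm (T w)).det = 1
  rw [det_mul, Lm_det, Rm_det, hn, hTn]; norm_num

theorem V4_faithful (T : F →* ℍ[ℝ]ˣ) (hT : ∀ w u, T w * T u = T u * T w)
    (hTn : ∀ w, Quaternion.normSq (T w : ℍ[ℝ]) = 1) : Faithful (V4 S hS hn T hT hTn) := by
  intro w hw
  change Lm (S w) * Rm (T w) = 1 at hw
  have key : ∀ x : ℍ[ℝ], (S w : ℍ[ℝ]) * (x * (T w : ℍ[ℝ])) = x := by
    intro x
    have h1 := congrArg (fun A => of4 (A *ᵥ ![x.re, x.imI, x.imJ, x.imK])) hw
    simp only [← mulVec_mulVec, of4_Lm, of4_Rm, one_mulVec] at h1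
    have h2 : of4 ![x.re, x.imI, x.imJ, x.imK] = x := by
      apply Quaternion.ext <;> simp
    rwa [h2] at h1
  apply eq_one_of_real S hS hn
  apply im_zero_of_central
  intro v
  have h1 := key 1
  rw [one_mul] at h1
  have h2 := key (of3 v)
  have h3 : (T w : ℍ[ℝ]) * (S w : ℍ[ℝ]) = 1 := by
    have h4 : S w * T w = 1 := Units.ext h1
    have h5 : T w * S w = 1 := mul_eq_one_comm.1 h4
    have h6 := congrArg (fun u : ℍ[ℝ]ˣ => (u : ℍ[ℝ])) h5
    simpa using h6
  have h4 := congrArg (fun x => x * (S w : ℍ[ℝ])) h2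
  simp only [mul_assoc, h3, mul_one] at h4
  exact h4

/-- the exponent sum of the first generator -/
def ex : F →* Multiplicative ℤ := FreeGroup.lift ![Multiplicative.ofAdd 1, 1]

/-- the commutative character sending the first generator to `-(S a)⁻¹` -/
noncomputable def Tc : F →* ℍ[ℝ]ˣ := (zpowersHom ℍ[ℝ]ˣ (-(S (FreeGroup.of 0))⁻¹)).comp ex

theorem Tc_comm (w u : F) : Tc S w * Tc S u = Tc S u * Tc S w := by
  unfold Tc
  rw [MonoidHom.comp_apply, MonoidHom.comp_apply, zpowersHom_apply, zpowersHom_apply]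
  exact ((Commute.refl _).zpow_zpow _ _)

theorem Tc_a : Tc S (FreeGroup.of 0) = -(S (FreeGroup.of 0))⁻¹ := by
  unfold Tc ex
  simp

include hn in
theorem Tc_norm (w : F) : Quaternion.normSq (Tc S w : ℍ[ℝ]) = 1 := by
  have h1 : Units.map (Quaternion.normSq (R := ℝ)).toMonoidHom (-(S (FreeGroup.of 0))⁻¹) = 1 := by
    apply Units.ext
    show Quaternion.normSq ((-(S (FreeGroup.of 0))⁻¹ : ℍ[ℝ]ˣ) : ℍ[ℝ]) = 1
    rw [Units.val_neg, Quaternion.normSq_neg, ← map_inv, hn]
  have h2 : Units.map (Quaternion.normSq (R := ℝ)).toMonoidHom (Tc S w) = 1 := by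
    unfold Tc
    rw [MonoidHom.comp_apply, zpowersHom_apply, map_zpow, h1, _root_.one_zpow]
  exact congrArg (fun u : ℝˣ => (u : ℝ)) h2

theorem V4_neg : Neg (V4 S hS hn (Tc S) (Tc_comm S) (Tc_norm S hn)) := by
  refine ⟨FreeGroup.of 0, ![1, 0, 0, 0], ?_, ?_⟩
  · intro h
    have := congrFun h 0
    simp at this
  · show (Lm (S _) * Rm (Tc S _)) *ᵥ _ = _
    apply of4_inj
    rw [← mulVec_mulVec, of4_Lm, of4_Rm, Tc_a, of4_neg]
    have h2 : of4 ![1, 0, 0, 0] = 1 := by
      apply Quaternion.ext <;> simp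
    rw [h2, one_mul, Units.val_neg, mul_neg, Units.mul_inv]

theorem V3_neg : Neg (V3 S hS hn sg) := by
  set p := (S (FreeGroup.of 0) : ℍ[ℝ]) with hp
  refine ⟨FreeGroup.of 0, ![p.imI, p.imJ, p.imK], ?_, ?_⟩
  · intro h
    have h0 := congrFun h 0
    have h1 := congrFun h 1
    have h2 := congrFun h 2
    simp at h0 h1 h2
    have := eq_one_of_real S hS hn (FreeGroup.of 0) ⟨h0, h1, h2⟩
    exact FreeGroup.of_ne_one 0 this
  · show ((((sg (FreeGroup.of 0) : ℤˣ) : ℤ) : ℝ) • Cm p) *ᵥ _ = _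
    have h1 : (((sg (FreeGroup.of 0) : ℤˣ) : ℤ) : ℝ) = -1 := by
      unfold sg; simp
    rw [h1, smul_mulVec, neg_one_smul]
    congr 1
    apply of3_inj
    rw [of3_Cm]
    have h2 : p * of3 ![p.imI, p.imJ, p.imK] = of3 ![p.imI, p.imJ, p.imK] * p := by
      apply Quaternion.ext <;> simp [Quaternion.re_mul, Quaternion.imI_mul,
        Quaternion.imJ_mul, Quaternion.imK_mul] <;> ring
    rw [h2, mul_assoc, self_mul_star' S hn, mul_one]

include hS hn in
theorem good_six : Good 6 := by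
  refine good_of ((V3 S hS hn sg).sum (V3 S hS hn sg)) (by simp) ?_
    (faithful_sum_left _ _ (V3_faithful S hS hn sg)) (neg_sum_left _ _ (V3_neg S hS hn))
  intro w
  rw [det_sum, V3_det]
  rcases Int.units_eq_one_or (sg w) with hc | hc <;> norm_num [hc]

include hS hn in
theorem good_seven : Good 7 := by
  refine good_of ((V4 S hS hn (Tc S) (Tc_comm S) (Tc_norm S hn)).sum (V3 S hS hn 1)) (by simp) ?_
    (faithful_sum_right _ _ (V3_faithful S hS hn 1)) (neg_sum_left _ _ (V4_neg S hS hn))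
  intro w
  rw [det_sum, V3_det, V4_det]
  simp

include hS hn in
theorem good_eight : Good 8 := by
  refine good_of ((V4 S hS hn (Tc S) (Tc_comm S) (Tc_norm S hn)).sum
    (V4 S hS hn (Tc S) (Tc_comm S) (Tc_norm S hn))) (by simp) ?_
    (faithful_sum_right _ _ (V4_faithful S hS hn _ _ _)) (neg_sum_left _ _ (V4_neg S hS hn))
  intro w
  rw [det_sum, V4_det]
  simp

include hS hn in
theorem good_step (n : ℕ) (h : Good n) : Good (n + 3) := by
  obtain ⟨R, hd, hf, hneg⟩ := h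
  refine good_of (R.sum (V3 S hS hn 1)) (by simp) ?_ (faithful_sum_left _ _ hf)
    (neg_sum_left _ _ hneg)
  intro w
  rw [det_sum, V3_det, hd]
  simp

end concrete

theorem good_all (n : ℕ) (hn6 : 6 ≤ n) : Good n := by
  obtain ⟨S, hS, hn⟩ := exists_free
  induction n using Nat.strong_induction_on with
  | _ n ih =>
    rcases Nat.lt_or_ge n 9 with h | h
    · interval_cases n
      · exact good_six S hS hn
      · exact good_seven S hS hn
      · exact good_eight S hS hn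
    · have h1 := ih (n - 3) (by omega) (by omega)
      have h2 := good_step S hS hn (n - 3) h1
      rwa [Nat.sub_add_cancel (by omega)] at h2

/-- **MP_6087e2_al, Q1.** For every integer `n ≥ 6` there is a subgroup `G` of `SO_n(ℝ)`, free of
rank two, whose action on the unit sphere is locally commutative and which contains an element
having `-1` as an eigenvalue. -/
theorem result : ∀ n : ℕ, 6 ≤ n →
    ∃ G : Subgroup (Matrix.specialOrthogonalGroup (Fin n) ℝ),
      Nonempty (FreeGroup (Fin 2) ≃* G) ∧ LocallyCommutative G ∧ ∃ g ∈ G, HasNegOne g :=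
  fun n hn => exists_subgroup (good_all n hn)

end Pool.Agent.Results.MP_6087e2_al.AllLargeDimensions
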